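import Pool.Agent.H31.CKU

open Pool.Agent.H31.CKU

universe u v

theorem Pool.Agent.Results.MP_a55298_gt.Neg.result (U : Type u) [TopologicalSpace U]
    (hU : InCM0.{u, v} U) :
    ∃ (Z : Type) (_ : TopologicalSpace Z), InCM0.{0, 0} Z ∧
      ¬ ∃ e : Z → U, Topology.IsEmbedding e :=
  no_universal U hU
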